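import Mathlib

/-!
Library Y815.DT (helper815), task DT-VAL of the project H176.DT: triangular presentations of finite
extensions of abelian groups.
-/

set_option autoImplicit false

namespace Pool.Agent.Y815.DT

open Subgroup

universe u

section
variable {Γ : Type u} [CommGroup Γ] (H : Subgroup Γ)

/-- the subgroup generated by `H` and the first `i` elements -/
def Hs {q : ℕ} (t : Fin q → Γ) (i : ℕ) : Subgroup Γ := H ⊔ closure {z | ∃ j : Fin q, (j : ℕ) < i ∧ t j = z}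

variable {H}

theorem Hs_mono {q : ℕ} (t : Fin q → Γ) {i j : ℕ} (h : i ≤ j) : Hs H t i ≤ Hs H t j :=
  sup_le_sup le_rfl (closure_mono fun _ ⟨k, hk, hz⟩ => ⟨k, hk.trans_le h, hz⟩)

theorem mem_Hs {q : ℕ} (t : Fin q → Γ) {i : ℕ} (j : Fin q) (h : (j : ℕ) < i) : t j ∈ Hs H t i :=
  (le_sup_right : _ ≤ Hs H t i) (subset_closure ⟨j, h, rfl⟩)

theorem H_le {q : ℕ} (t : Fin q → Γ) (i : ℕ) : H ≤ Hs H t i := le_sup_left

/-- one more element -/
theorem Hs_succ {q : ℕ} (t : Fin q → Γ) (i : Fin q) {z : Γ} (hz : z ∈ Hs H t (i + 1)) :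
    ∃ k : ℤ, z * t i ^ (-k) ∈ Hs H t i := by
  have h1 : Hs H t (i + 1) ≤ Hs H t i ⊔ zpowers (t i) := by
    refine sup_le (le_sup_of_le_left (H_le t i)) ?_
    rw [closure_le]
    rintro z ⟨j, hj, rfl⟩
    by_cases h : (j : ℕ) < i
    · exact (le_sup_left : Hs H t i ≤ _) (mem_Hs t j h)
    · have : j = i := Fin.ext (by omega)
      rw [this]
      exact (le_sup_right : zpowers (t i) ≤ _) (mem_zpowers _)
  obtain ⟨a, ha, b, hb, rfl⟩ := mem_sup.mp (h1 hz)
  obtain ⟨k, rfl⟩ := mem_zpowers_iff.mp hb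
  refine ⟨k, ?_⟩
  rw [zpow_neg, mul_inv_cancel_right]
  exact ha

/-- the relative order of `t i` -/
theorem exists_order {q : ℕ} (t : Fin q → Γ) (ht : ∀ i, ∃ N : ℕ, 0 < N ∧ t i ^ N ∈ H) (i : Fin q) :
    ∃ e : ℕ, 0 < e ∧ t i ^ e ∈ Hs H t i ∧ ∀ k : ℤ, t i ^ k ∈ Hs H t i → (e : ℤ) ∣ k := by
  classical
  have hex : ∃ n : ℕ, 0 < n ∧ t i ^ n ∈ Hs H t i := by
    obtain ⟨N, hN, h⟩ := ht i
    exact ⟨N, hN, H_le t i h⟩
  obtain ⟨h1, h2⟩ := Nat.find_spec hex
  refine ⟨Nat.find hex, h1, h2, fun k hk => ?_⟩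
  set e := Nat.find hex with he
  have hep : (0 : ℤ) < e := by exact_mod_cast h1
  have h3 : t i ^ (k % e) ∈ Hs H t i := by
    have h4 : t i ^ (k % e) = t i ^ k * ((t i ^ e) ^ (k / e))⁻¹ := by
      rw [← zpow_natCast (t i) e, ← zpow_mul, ← zpow_neg, ← zpow_add]
      congr 1
      have := Int.emod_add_mul_ediv k e
      linarith
    rw [h4]
    exact mul_mem hk (inv_mem (zpow_mem h2 _))
  by_contra hcon
  have h5 : k % e ≠ 0 := fun h => hcon (Int.dvd_of_emod_eq_zero h)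
  have h6 := Int.emod_nonneg k hep.ne'
  have h7 := Int.emod_lt_of_pos k hep
  obtain ⟨n, hn⟩ := Int.eq_ofNat_of_zero_le h6
  have h8 : ¬ (0 < n ∧ t i ^ n ∈ Hs H t i) := Nat.find_min hex (by omega)
  apply h8
  refine ⟨by omega, ?_⟩
  rw [hn, zpow_natCast] at h3
  exact h3

/-- existence of the exponents -/
theorem exists_mu {q : ℕ} (t : Fin q → Γ) (ee : Fin q → ℕ) (he : ∀ i, 0 < ee i)
    (h1 : ∀ i : Fin q, t i ^ ee i ∈ Hs H t i) (n : ℕ) (hn : n ≤ q) :
    ∀ z ∈ Hs H t n, ∃ μ : (i : Fin q) → Fin (ee i), (∀ i : Fin q, n ≤ (i : ℕ) → (μ i : ℕ) = 0) ∧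
      z * (∏ i, t i ^ (μ i : ℕ))⁻¹ ∈ H := by
  classical
  induction n with
  | zero =>
    intro z hz
    refine ⟨fun i => ⟨0, he i⟩, fun i _ => rfl, ?_⟩
    have h2 : Hs H t 0 = H := by
      unfold Hs
      have : {z | ∃ j : Fin q, (j : ℕ) < 0 ∧ t j = z} = ∅ := by
        ext z; simp
      rw [this, Subgroup.closure_empty, sup_bot_eq]
    rw [h2] at hz
    simpa using hz
  | succ n ih =>
    intro z hz
    set i : Fin q := ⟨n, hn⟩ with hi
    obtain ⟨k, hk⟩ := Hs_succ t i hz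
    have hep : (0 : ℤ) < ee i := by exact_mod_cast he i
    have h6 := Int.emod_nonneg k hep.ne'
    have h7 := Int.emod_lt_of_pos k hep
    obtain ⟨r, hr⟩ := Int.eq_ofNat_of_zero_le h6
    have hrlt : r < ee i := by omega
    -- reduce the exponent
    have h8 : z * (t i ^ r)⁻¹ ∈ Hs H t n := by
      have h9 : z * (t i ^ r)⁻¹ = (z * t i ^ (-k)) * (t i ^ ee i) ^ (k / ee i) := by
        rw [← zpow_natCast (t i) r, ← zpow_natCast (t i) (ee i), ← zpow_mul, ← zpow_neg, mul_assoc,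
          ← zpow_add]
        congr 2
        have := Int.emod_add_mul_ediv k (ee i)
        rw [hr] at this
        linarith
      rw [h9]
      exact mul_mem hk (zpow_mem (h1 i) _)
    obtain ⟨μ, hμ0, hμ⟩ := ih (by omega) _ h8
    refine ⟨Function.update μ i ⟨r, hrlt⟩, fun j hj => ?_, ?_⟩
    · have hji : j ≠ i := by
        intro h
        rw [h, hi] at hj
        simp at hj
      rw [Function.update_of_ne hji]
      exact hμ0 j (by omega)
    · have h10 : ∏ j, t j ^ ((Function.update μ i ⟨r, hrlt⟩ j : Fin (ee j)) : ℕ) =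
          t i ^ r * ∏ j, t j ^ (μ j : ℕ) := by
        rw [← Finset.mul_prod_erase _ _ (Finset.mem_univ i), ← Finset.mul_prod_erase Finset.univ
          (fun j => t j ^ (μ j : ℕ)) (Finset.mem_univ i), Function.update_self]
        have h11 : ((μ i : Fin (ee i)) : ℕ) = 0 := hμ0 i (by rw [hi])
        rw [h11, pow_zero, one_mul]
        congr 1
        refine Finset.prod_congr rfl fun j hj => ?_
        rw [Function.update_of_ne (Finset.ne_of_mem_erase hj)]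
      rw [h10, mul_inv, ← mul_assoc]
      exact hμ

/-- uniqueness of the exponents -/
theorem unique_mu {q : ℕ} (t : Fin q → Γ) (ee : Fin q → ℕ)
    (h2 : ∀ (i : Fin q) (k : ℤ), t i ^ k ∈ Hs H t i → (ee i : ℤ) ∣ k)
    (μ ν : (i : Fin q) → Fin (ee i)) (h : (∏ i, t i ^ (μ i : ℕ)) * (∏ i, t i ^ (ν i : ℕ))⁻¹ ∈ H) :
    μ = ν := by
  classical
  by_contra hne
  -- the last index where they differ
  obtain ⟨i, hi, hmax⟩ : ∃ i : Fin q, μ i ≠ ν i ∧ ∀ j, i < j → μ j = ν j := by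
    have hS : (Finset.univ.filter fun i : Fin q => μ i ≠ ν i).Nonempty := by
      by_contra hcon
      rw [Finset.not_nonempty_iff_eq_empty, Finset.filter_eq_empty_iff] at hcon
      exact hne (funext fun i => by simpa using hcon (Finset.mem_univ i))
    refine ⟨(Finset.univ.filter fun i : Fin q => μ i ≠ ν i).max' hS, ?_, fun j hj => ?_⟩
    · exact (Finset.mem_filter.mp (Finset.max'_mem _ hS)).2
    · by_contra hcon
      have := Finset.le_max' (Finset.univ.filter fun i : Fin q => μ i ≠ ν i) j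
        (Finset.mem_filter.mpr ⟨Finset.mem_univ _, hcon⟩)
      exact absurd hj (not_lt.mpr this)
  have h3 : (∏ i, t i ^ (μ i : ℕ)) * (∏ i, t i ^ (ν i : ℕ))⁻¹ = ∏ j, t j ^ (((μ j : ℕ) : ℤ) - ((ν j : ℕ) : ℤ)) := by
    rw [← Finset.prod_inv_distrib, ← Finset.prod_mul_distrib]
    refine Finset.prod_congr rfl fun j _ => ?_
    rw [zpow_sub, zpow_natCast, zpow_natCast]
  rw [h3, ← Finset.mul_prod_erase _ _ (Finset.mem_univ i)] at h
  have h4 : ∏ j ∈ Finset.univ.erase i, t j ^ (((μ j : ℕ) : ℤ) - ((ν j : ℕ) : ℤ)) ∈ Hs H t i := by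
    refine prod_mem fun j hj => ?_
    rcases lt_trichotomy j i with hlt | heq | hgt
    · exact zpow_mem (mem_Hs t j hlt) _
    · exact absurd heq (Finset.ne_of_mem_erase hj)
    · rw [hmax j hgt, sub_self, zpow_zero]
      exact one_mem _
  have h5 : t i ^ (((μ i : ℕ) : ℤ) - ((ν i : ℕ) : ℤ)) ∈ Hs H t i := by
    have h6 := mul_mem (H_le t i h) (inv_mem h4)
    rwa [mul_inv_cancel_right] at h6
  have h7 := h2 i _ h5
  have h8 := (μ i).2
  have h9 := (ν i).2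
  apply hi
  apply Fin.ext
  obtain ⟨c, hc⟩ := h7
  have hc0 : c = 0 := by
    by_contra hcon
    rcases lt_or_gt_of_ne hcon with h10 | h10
    · have : (ee i : ℤ) * c ≤ -(ee i) := by nlinarith
      omega
    · have : (ee i : ℤ) ≤ ee i * c := by nlinarith
      omega
  rw [hc0, mul_zero] at hc
  omega

end

/-- the statement of the task -/
theorem val_aux {Γ : Type u} [CommGroup Γ] (H : Subgroup Γ) (q : ℕ) (t : Fin q → Γ)
    (ht : ∀ i, ∃ N : ℕ, 0 < N ∧ t i ^ N ∈ H) :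
    ∃ ee : Fin q → ℕ, (∀ i, 0 < ee i) ∧
      (∀ i, t i ^ ee i ∈ H ⊔ Subgroup.closure {z | ∃ j, j < i ∧ t j = z}) ∧
      (∀ (i : Fin q) (k : ℤ), t i ^ k ∈ H ⊔ Subgroup.closure {z | ∃ j, j < i ∧ t j = z} →
        (ee i : ℤ) ∣ k) ∧
      ∀ z ∈ H ⊔ Subgroup.closure (Set.range t), ∃! μ : (i : Fin q) → Fin (ee i),
        z * (∏ i, t i ^ (μ i : ℕ))⁻¹ ∈ H := by
  choose ee h1 h2 h3 using fun i => exists_order t ht i
  refine ⟨ee, h1, h2, h3, fun z hz => ?_⟩
  have hz' : z ∈ Hs H t q := by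
    have : Hs H t q = H ⊔ Subgroup.closure (Set.range t) := by
      unfold Hs
      congr 2
      ext z
      exact ⟨fun ⟨j, _, hj⟩ => ⟨j, hj⟩, fun ⟨j, hj⟩ => ⟨j, j.2, hj⟩⟩
    rw [this]
    exact hz
  obtain ⟨μ, _, hμ⟩ := exists_mu t ee h1 h2 q le_rfl z hz'
  refine ⟨μ, hμ, fun ν hν => ?_⟩
  apply unique_mu t ee h3
  have h4 := mul_mem hμ (inv_mem hν)
  have h5 : z * (∏ i, t i ^ (μ i : ℕ))⁻¹ * (z * (∏ i, t i ^ (ν i : ℕ))⁻¹)⁻¹ =
      (∏ i, t i ^ (ν i : ℕ)) * (∏ i, t i ^ (μ i : ℕ))⁻¹ := by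
    rw [mul_inv, inv_inv]
    have : ∀ a b c : Γ, a * b⁻¹ * (a⁻¹ * c) = c * b⁻¹ := by
      intro a b c
      rw [mul_comm a b⁻¹, mul_assoc, ← mul_assoc a, mul_inv_cancel, one_mul, mul_comm]
    exact this _ _ _
  rw [h5] at h4
  exact h4

end Pool.Agent.Y815.DT
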