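import Pool.Agent.H59.L.S8.H176.DT.Stm
import Pool.Agent.H59.L.S8.Y815.DT.ValAux

/-!
Library Y815.DT (helper815), task DT-VAL of the project H176.DT.
-/

set_option autoImplicit false

namespace Pool.Agent.Y815.DT

universe u

theorem val : Pool.Agent.H176.DT.S_val.{u} := fun H q t ht => val_aux H q t ht

end Pool.Agent.Y815.DT
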